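import Pool.Agent.W16.CM.Stm

set_option autoImplicit false

namespace Pool.Agent.W344.CM

open Pool.Agent.W16.CM MvPolynomial

theorem davp : St_DAVP := by
  intro p Q s v hp hcard
  classical
  have : Fact p.Prime := ⟨hp⟩
  let f : ℕ → MvPolynomial s (ZMod p) := fun r =>
    ∑ i : s, ((v i r : ℤ) : ZMod p) • X i ^ (p - 1)
  have hdeg : ∀ r ∈ Q, (f r).totalDegree ≤ p - 1 := by
    intro r _
    apply totalDegree_finsetSum_le
    intro i _
    exact (totalDegree_smul_le ..).trans (totalDegree_X_pow ..).le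
  have hsum : ∑ r ∈ Q, (f r).totalDegree < Fintype.card s := by
    calc ∑ r ∈ Q, (f r).totalDegree ≤ Q.card • (p - 1) := Finset.sum_le_card_nsmul _ _ _ hdeg
      _ = Q.card * (p - 1) := by rw [smul_eq_mul]
      _ < s.card := hcard
      _ = Fintype.card s := by simp
  have hdvd : p ∣ Fintype.card {x : s → ZMod p // ∀ r ∈ Q, eval x (f r) = 0} :=
    char_dvd_card_solutions_of_sum_lt p hsum
  have hp1 : p - 1 ≠ 0 := by
    have := hp.two_le
    omega
  let zero_sol : {x : s → ZMod p // ∀ r ∈ Q, eval x (f r) = 0} :=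
    ⟨0, by intro r _; simp [f, hp1]⟩
  have hpos : 0 < Fintype.card {x : s → ZMod p // ∀ r ∈ Q, eval x (f r) = 0} :=
    @Fintype.card_pos _ _ ⟨zero_sol⟩
  obtain ⟨x, hx⟩ := Fintype.exists_ne_of_one_lt_card
    (hp.one_lt.trans_le (Nat.le_of_dvd hpos hdvd)) zero_sol
  refine ⟨(Finset.univ.filter (fun i : s => x.1 i ≠ 0)).map ⟨(↑), Subtype.val_injective⟩, ?_, ?_, ?_⟩
  · intro i hi
    rw [Finset.mem_map] at hi
    obtain ⟨j, -, rfl⟩ := hi
    exact j.2
  · rw [Finset.map_nonempty]
    by_contra hc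
    rw [Finset.not_nonempty_iff_eq_empty, Finset.filter_eq_empty_iff] at hc
    apply hx
    apply Subtype.ext
    funext i
    have := hc (Finset.mem_univ i)
    push Not at this
    exact this
  · intro r hr
    have h1 := x.2 r hr
    rw [Finset.sum_map]
    rw [← ZMod.intCast_zmod_eq_zero_iff_dvd]
    push_cast
    rw [Finset.sum_filter]
    simpa [f, ZMod.pow_card_sub_one] using h1

end Pool.Agent.W344.CM
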